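import Pool.Agent.Work.MP_974ce4_co.Defs

/-!
# Graphs of clique-width at most `k` have twin-width at most `2 k`
-/

namespace Pool.Agent.Work.MP_974ce4_co

open SimpleGraph

/-- The map `l` is constant on the parts of `p`. -/
def Pure {V Λ : Type} (l : V → Λ) (p : V → V) : Prop := ∀ u v, p u = p v → l u = l v

/-- Contraction sequences all of whose parts are monochromatic for `l`. -/
inductive PSeq {V Λ : Type} (G : SimpleGraph V) (l : V → Λ) (d : ℕ) : (V → V) → Prop
  | start : PSeq G l d id
  | merge (p : V → V) (a b : V) : PSeq G l d p → RedDegLE G d (mergeParts p a b) →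
      Pure l (mergeParts p a b) → PSeq G l d (mergeParts p a b)

theorem PSeq.contracts {V Λ : Type} {G : SimpleGraph V} {l : V → Λ} {d : ℕ} {p : V → V}
    (h : PSeq G l d p) : Contracts G d p := by
  induction h with
  | start => exact Contracts.start
  | merge p a b _ hr _ ih => exact Contracts.merge p a b ih hr

theorem PSeq.pure {V Λ : Type} {G : SimpleGraph V} {l : V → Λ} {d : ℕ} {p : V → V}
    (h : PSeq G l d p) : Pure l p := by
  cases h with
  | start => intro u v huv; rw [show u = v from huv]
  | merge p a b _ _ hp => exact hp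

theorem redDegLE_id {V : Type} (G : SimpleGraph V) (d : ℕ) : RedDegLE G d id := by
  intro a
  have : {b : V | RedPair G id a b} = ∅ := by
    ext b
    simp only [Set.mem_setOf_eq, Set.mem_empty_iff_false, iff_false]
    rintro ⟨_, ⟨x, y, hx, hy, hxy⟩, ⟨x', y', hx', hy', hxy'⟩⟩
    simp only [id_eq] at hx hy hx' hy'
    subst hx hy hx' hy'
    exact hxy' hxy
  rw [this]
  simp

theorem PSeq.redDegLE {V Λ : Type} {G : SimpleGraph V} {l : V → Λ} {d : ℕ} {p : V → V}
    (h : PSeq G l d p) : RedDegLE G d p := by
  cases h with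
  | start => exact redDegLE_id G d
  | merge p a b _ hr _ => exact hr

theorem PSeq.coarsen {V Λ Λ' : Type} {G : SimpleGraph V} {l : V → Λ} {l' : V → Λ'} {d : ℕ}
    {p : V → V} (hl : ∀ u v, l u = l v → l' u = l' v) (h : PSeq G l d p) : PSeq G l' d p := by
  induction h with
  | start => exact PSeq.start
  | merge p a b _ hr hp ih => exact PSeq.merge p a b ih hr (fun u v huv => hl _ _ (hp u v huv))

theorem PSeq.change {V Λ : Type} {G G' : SimpleGraph V} {l : V → Λ} {d : ℕ} {p : V → V}
    (hG : ∀ q : V → V, Pure l q → ∀ a b, RedPair G' q a b → RedPair G q a b)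
    (h : PSeq G l d p) : PSeq G' l d p := by
  induction h with
  | start => exact PSeq.start
  | merge p a b _ hr hp ih =>
    refine PSeq.merge p a b ih ?_ hp
    intro c
    refine le_trans (Set.encard_le_encard ?_) (hr c)
    intro b hb
    exact hG _ hp _ _ hb

theorem PSeq.finish {V Λ : Type} {G : SimpleGraph V} {l : V → Λ} {d : ℕ} {p : V → V}
    (h : PSeq G l d p) (hd : (Set.range p).encard ≤ d) :
    ∃ q, PSeq G l d q ∧ ∀ u v, l u = l v → q u = q v := by
  classical
  have hfin : (Set.range p).Finite := Set.finite_of_encard_le_coe hd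
  -- representatives of the labels
  have hsec : ∀ v, ∃ w, l w = l v := fun v => ⟨v, rfl⟩
  let sec : Λ → V → V := fun i v => if h : ∃ w, l w = i then h.choose else v
  have hsec1 : ∀ v, l (sec (l v) v) = l v := by
    intro v
    have hex : ∃ w, l w = l v := ⟨v, rfl⟩
    simp only [sec, dif_pos hex]
    exact hex.choose_spec
  have hsec2 : ∀ u v, l u = l v → sec (l u) u = sec (l v) v := by
    intro u v huv
    have hex : ∃ w, l w = l v := ⟨v, rfl⟩
    simp only [sec]
    rw [huv, dif_pos hex, dif_pos hex]
  let f : V → V := fun x => if h : ∃ v, p v = x then p (sec (l h.choose) h.choose) else x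
  have hf : ∀ v, f (p v) = p (sec (l v) v) := by
    intro v
    have hex : ∃ w, p w = p v := ⟨v, rfl⟩
    simp only [f, dif_pos hex]
    rw [hsec2 hex.choose v (h.pure _ _ hex.choose_spec)]
  have hff : ∀ v, f (f (p v)) = f (p v) := by
    intro v
    rw [hf, hf]
    rw [hsec2 (sec (l v) v) v (hsec1 v)]
  let r : Finset V → V → V := fun A v => if p v ∈ A then f (p v) else p v
  have hr1 : ∀ A v, ∃ u, l u = l v ∧ r A v = p u := by
    intro A v
    by_cases hA : p v ∈ A
    · exact ⟨sec (l v) v, hsec1 v, by simp only [r, if_pos hA, hf]⟩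
    · exact ⟨v, rfl, by simp only [r, if_neg hA]⟩
  have hrd : ∀ A, RedDegLE G d (r A) := by
    intro A a
    refine le_trans (Set.encard_le_encard ?_) hd
    rintro b ⟨_, ⟨x, y, _, hy, _⟩, _⟩
    obtain ⟨u, _, hu⟩ := hr1 A y
    exact ⟨u, by rw [← hu, hy]⟩
  have hrp : ∀ A, Pure l (r A) := by
    intro A u v huv
    obtain ⟨u', hu', hu''⟩ := hr1 A u
    obtain ⟨v', hv', hv''⟩ := hr1 A v
    rw [← hu', ← hv']
    apply h.pure
    rw [← hu'', ← hv'', huv]
  have key : ∀ A : Finset V, PSeq G l d (r A) := by
    intro A
    induction A using Finset.induction_on with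
    | empty =>
      have : r ∅ = p := by
        funext v
        simp [r]
      rw [this]
      exact h
    | insert a A haA ih =>
      have heq : r (insert a A) = mergeParts (r A) a (f a) := by
        funext v
        simp only [mergeParts, r]
        by_cases h1 : p v ∈ A
        · rw [if_pos (Finset.mem_insert_of_mem h1), if_pos h1]
          by_cases h2 : f (p v) = a
          · rw [if_pos h2, ← h2, hff]
          · rw [if_neg h2]
        · rw [if_neg h1]
          by_cases h2 : p v = a
          · rw [if_pos h2, if_pos (by rw [h2]; exact Finset.mem_insert_self _ _), h2]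
          · rw [if_neg h2, if_neg (by rw [Finset.mem_insert]; tauto)]
      have hd' := hrd (insert a A)
      have hp' := hrp (insert a A)
      rw [heq] at hd' hp' ⊢
      exact PSeq.merge _ _ _ ih hd' hp'
  refine ⟨r hfin.toFinset, key _, ?_⟩
  intro u v huv
  have e : ∀ w, r hfin.toFinset w = p (sec (l w) w) := by
    intro w
    have : p w ∈ hfin.toFinset := by
      rw [Set.Finite.mem_toFinset]
      exact ⟨w, rfl⟩
    simp only [r, if_pos this, hf]
  rw [e, e, hsec2 u v huv]

/-! ### Disjoint unions -/

theorem redDegLE_sum {V W : Type} {G : SimpleGraph V} {H : SimpleGraph W} {d : ℕ} {p : V → V}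
    {q : W → W} (hp : RedDegLE G d p) (hq : RedDegLE H d q) :
    RedDegLE (G ⊕g H) d (Sum.map p q) := by
  intro a
  rcases a with a | a
  · refine le_trans ?_ (hp a)
    have : {b | RedPair (G ⊕g H) (Sum.map p q) (Sum.inl a) b}
        ⊆ Sum.inl '' {b | RedPair G p a b} := by
      rintro b ⟨hab, ⟨x, y, hx, hy, hxy⟩, ⟨x', y', hx', hy', hxy'⟩⟩
      rcases x with x | x
      swap
      · simp at hx
      rcases y with y | y
      swap
      · exact absurd hxy (by simp [SimpleGraph.sum])
      rcases x' with x' | x'
      swap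
      · simp at hx'
      rcases y' with y' | y'
      swap
      · rw [← hy] at hy'
        simp at hy'
      refine ⟨p y, ⟨?_, ⟨x, y, ?_, rfl, ?_⟩, ⟨x', y', ?_, ?_, ?_⟩⟩, ?_⟩
      · intro h
        apply hab
        rw [← hy, h]
        rfl
      · simpa using hx
      · simpa [SimpleGraph.sum] using hxy
      · simpa using hx'
      · rw [← hy] at hy'
        simpa using hy'
      · simpa [SimpleGraph.sum] using hxy'
      · rw [← hy]; rfl
    refine le_trans (Set.encard_le_encard this) ?_
    rw [Sum.inl_injective.encard_image]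
  · refine le_trans ?_ (hq a)
    have : {b | RedPair (G ⊕g H) (Sum.map p q) (Sum.inr a) b}
        ⊆ Sum.inr '' {b | RedPair H q a b} := by
      rintro b ⟨hab, ⟨x, y, hx, hy, hxy⟩, ⟨x', y', hx', hy', hxy'⟩⟩
      rcases x with x | x
      · simp at hx
      rcases y with y | y
      · exact absurd hxy (by simp [SimpleGraph.sum])
      rcases x' with x' | x'
      · simp at hx'
      rcases y' with y' | y'
      · rw [← hy] at hy'
        simp at hy'
      refine ⟨q y, ⟨?_, ⟨x, y, ?_, rfl, ?_⟩, ⟨x', y', ?_, ?_, ?_⟩⟩, ?_⟩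
      · intro h
        apply hab
        rw [← hy, h]
        rfl
      · simpa using hx
      · simpa [SimpleGraph.sum] using hxy
      · simpa using hx'
      · rw [← hy] at hy'
        simpa using hy'
      · simpa [SimpleGraph.sum] using hxy'
      · rw [← hy]; rfl
    refine le_trans (Set.encard_le_encard this) ?_
    rw [Sum.inr_injective.encard_image]

theorem pure_sum {V W Λ : Type} {l : V → Λ} {l' : W → Λ} {p : V → V} {q : W → W}
    (hp : Pure l p) (hq : Pure l' q) : Pure (Sum.elim l l') (Sum.map p q) := by
  rintro (u | u) (v | v) huv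
  · exact hp u v (by simpa using huv)
  · simp at huv
  · simp at huv
  · exact hq u v (by simpa using huv)

theorem merge_map_left {V W : Type} (p : V → V) (q : W → W) (a b : V) :
    mergeParts (Sum.map p q) (Sum.inl a) (Sum.inl b) = Sum.map (mergeParts p a b) q := by
  classical
  funext x
  rcases x with x | x
  · simp only [mergeParts, Sum.map_inl, Sum.inl.injEq]
    split_ifs <;> rfl
  · simp [mergeParts]

theorem merge_map_right {V W : Type} (p : V → V) (q : W → W) (a b : W) :
    mergeParts (Sum.map p q) (Sum.inr a) (Sum.inr b) = Sum.map p (mergeParts q a b) := by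
  classical
  funext x
  rcases x with x | x
  · simp [mergeParts]
  · simp only [mergeParts, Sum.map_inr, Sum.inr.injEq]
    split_ifs <;> rfl

theorem PSeq.sum {V W Λ : Type} {G : SimpleGraph V} {H : SimpleGraph W} {l : V → Λ} {l' : W → Λ}
    {d : ℕ} {p : V → V} {q : W → W} (hp : PSeq G l d p) (hq : PSeq H l' d q) :
    PSeq (G ⊕g H) (Sum.elim l l') d (Sum.map p q) := by
  have h1 : PSeq (G ⊕g H) (Sum.elim l l') d (Sum.map p id) := by
    induction hp with
    | start => rw [Sum.map_id_id]; exact PSeq.start
    | merge p a b _ hr hpu ih =>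
      have e := merge_map_left p (id : W → W) a b
      have h2 := redDegLE_sum hr (redDegLE_id H d)
      have h3 := pure_sum hpu (PSeq.start (G := H) (l := l') (d := d)).pure
      rw [← e] at h2 h3 ⊢
      exact PSeq.merge _ _ _ ih h2 h3
  have hpr := hp.redDegLE
  have hpp := hp.pure
  clear hp
  induction hq with
  | start => exact h1
  | merge q a b _ hr hpu ih =>
    have e := merge_map_right p q a b
    have h2 := redDegLE_sum hpr hr
    have h3 := pure_sum hpp hpu
    rw [← e] at h2 h3 ⊢
    exact PSeq.merge _ _ _ ih h2 h3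

/-! ### Isomorphisms -/

theorem PSeq.iso {V W Λ : Type} {G : SimpleGraph V} {H : SimpleGraph W} {l : V → Λ} {d : ℕ}
    {p : V → V} (e : G ≃g H) (hp : PSeq G l d p) :
    PSeq H (fun w => l (e.symm w)) d (fun w => e (p (e.symm w))) := by
  classical
  induction hp with
  | start =>
    have : (fun w => e (id (e.symm w))) = id := by
      funext w
      simp
    rw [this]
    exact PSeq.start
  | merge p a b _ hr hpu ih =>
    have heq : (fun w => e (mergeParts p a b (e.symm w)))
        = mergeParts (fun w => e (p (e.symm w))) (e a) (e b) := by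
      funext w
      simp only [mergeParts, EmbeddingLike.apply_eq_iff_eq]
      split_ifs <;> rfl
    have h2 : RedDegLE H d (fun w => e (mergeParts p a b (e.symm w))) := by
      intro c
      refine le_trans ?_ (hr (e.symm c))
      have : {b' | RedPair H (fun w => e (mergeParts p a b (e.symm w))) c b'}
          ⊆ e '' {b' | RedPair G (mergeParts p a b) (e.symm c) b'} := by
        rintro b' ⟨hab, ⟨x, y, hx, hy, hxy⟩, ⟨x', y', hx', hy', hxy'⟩⟩
        refine ⟨e.symm b', ⟨?_, ⟨e.symm x, e.symm y, ?_, ?_, ?_⟩,
          ⟨e.symm x', e.symm y', ?_, ?_, ?_⟩⟩, by simp⟩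
        · intro h
          exact hab (e.symm.injective h)
        · rw [← hx]; simp
        · rw [← hy]; simp
        · exact e.symm.map_adj_iff.2 hxy
        · rw [← hx']; simp
        · rw [← hy']; simp
        · intro h
          exact hxy' (e.symm.map_adj_iff.1 h)
      refine le_trans (Set.encard_le_encard this) ?_
      rw [e.injective.encard_image]
    have h3 : Pure (fun w => l (e.symm w)) (fun w => e (mergeParts p a b (e.symm w))) := by
      intro u v huv
      exact hpu _ _ (e.injective huv)
    rw [heq] at h2 h3 ⊢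
    exact PSeq.merge _ _ _ ih h2 h3

theorem encard_range_le {V : Type} {k : ℕ} {l : V → Fin k} {p : V → V}
    (h : ∀ u v, l u = l v → p u = p v) : (Set.range p).encard ≤ k := by
  classical
  have h1 : Function.Injective (fun x : Set.range p => l x.2.choose) := by
    intro x y hxy
    have := h _ _ hxy
    rw [x.2.choose_spec, y.2.choose_spec] at this
    exact Subtype.ext this
  have h2 : (Set.range p).encard = ENat.card (Set.range p) := rfl
  rw [h2]
  have h3 := ENat.card_le_card_of_injective h1
  simpa using h3

/-- A clique-width construction gives a contraction sequence ending in the label classes. -/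
theorem CW.pseq {k : ℕ} {V : Type} {G : SimpleGraph V} {l : V → Fin k} (h : CW k V G l) :
    ∃ p, PSeq G l (2 * k) p ∧ ∀ u v, l u = l v → p u = p v := by
  classical
  induction h with
  | vertex i => exact ⟨id, PSeq.start, fun u v _ => rfl⟩
  | union _ _ ih₁ ih₂ =>
    obtain ⟨p, hp, hp'⟩ := ih₁
    obtain ⟨q, hq, hq'⟩ := ih₂
    have h1 := hp.sum hq
    apply h1.finish
    have h2 : Set.range (Sum.map p q) ⊆ Sum.inl '' Set.range p ∪ Sum.inr '' Set.range q := by
      rintro _ ⟨x | x, rfl⟩
      · exact Or.inl ⟨_, ⟨x, rfl⟩, rfl⟩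
      · exact Or.inr ⟨_, ⟨x, rfl⟩, rfl⟩
    calc (Set.range (Sum.map p q)).encard
        ≤ (Sum.inl '' Set.range p ∪ Sum.inr '' Set.range q).encard := Set.encard_le_encard h2
      _ ≤ (Sum.inl '' Set.range p).encard + (Sum.inr '' Set.range q).encard :=
          Set.encard_union_le _ _
      _ = (Set.range p).encard + (Set.range q).encard := by
          rw [Sum.inl_injective.encard_image, Sum.inr_injective.encard_image]
      _ ≤ k + k := add_le_add (encard_range_le hp') (encard_range_le hq')
      _ = ((2 * k : ℕ) : ℕ∞) := by push_cast; ring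
  | join i j hij _ ih =>
    obtain ⟨p, hp, hp'⟩ := ih
    refine ⟨p, hp.change ?_, hp'⟩
    rintro q hq a b ⟨hab, ⟨x, y, hx, hy, hxy⟩, ⟨x', y', hx', hy', hxy'⟩⟩
    have lx := hq x x' (hx.trans hx'.symm)
    have ly := hq y y' (hy.trans hy'.symm)
    have hne : x' ≠ y' := by
      rintro rfl
      exact hab (hx'.symm.trans hy')
    simp only [sup_adj, fromRel_adj] at hxy hxy'
    rw [lx, ly] at hxy
    refine ⟨hab, ⟨x, y, hx, hy, ?_⟩, ⟨x', y', hx', hy', ?_⟩⟩
    · tauto
    · tauto
  | relabel i j _ ih =>
    obtain ⟨p, hp, hp'⟩ := ih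
    have h1 := hp.coarsen (l' := fun v => if (‹_ → Fin k› v) = i then j else (‹_ → Fin k› v)) (by
      intro u v huv
      simp only [huv])
    apply h1.finish
    refine le_trans (encard_range_le hp') ?_
    exact_mod_cast (by omega : k ≤ 2 * k)
  | iso e _ ih =>
    obtain ⟨p, hp, hp'⟩ := ih
    refine ⟨_, hp.iso e, ?_⟩
    intro u v huv
    rw [hp' _ _ huv]

/-- Graphs of clique-width at most `k` have twin-width at most `2 k`. -/
theorem CliqueWidthLE.twinWidthLE {k : ℕ} {V : Type} {G : SimpleGraph V}
    (h : CliqueWidthLE k G) : TwinWidthLE (2 * k) G := by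
  obtain ⟨l, hl⟩ := h
  obtain ⟨p, hp, hp'⟩ := hl.pseq
  have h1 := hp.coarsen (l' := fun _ => ()) (fun _ _ _ => rfl)
  obtain ⟨q, hq, hq'⟩ := h1.finish (by
    refine le_trans (encard_range_le hp') ?_
    exact_mod_cast (by omega : k ≤ 2 * k))
  exact ⟨q, hq.contracts, fun u v => hq' u v rfl⟩

end Pool.Agent.Work.MP_974ce4_co
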