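import Mathlib

/-!
# Hosts of node-labelled complete binary trees

`LT K h` is the type of complete binary trees of depth `h` whose internal nodes are
labelled by elements of `K`.  `Emb D h T S` says that the leaves of `T` can be mapped into
the finite set `S` in such a way that the value of `D` on the images of two leaves is the label
of their lowest common ancestor.  The main lemma `exists_not_emb` says that a set hosting
all labelled trees of depth `3 * j` has at least `ρ ^ j` elements, where `8 * ρ ^ 3 ≤ |K|`.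
-/

namespace Pool.Agent.Work.MP_974ce4_co

open Finset

/-- Complete binary trees of depth `h` with internal nodes labelled by elements of `K`. -/
def LT (K : Type) : ℕ → Type
  | 0 => Unit
  | h + 1 => LT K h × LT K h × K

instance instFintypeLT (K : Type) [Fintype K] : (h : ℕ) → Fintype (LT K h)
  | 0 => inferInstanceAs (Fintype Unit)
  | h + 1 => by
      haveI := instFintypeLT K h
      exact inferInstanceAs (Fintype (LT K h × LT K h × K))

/-- `Emb D h T S`: the labelled tree `T` embeds into the host `(S, D)`. -/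
def Emb {K α : Type} (D : α → α → K) : (h : ℕ) → LT K h → Finset α → Prop
  | 0, _, S => S.Nonempty
  | h + 1, (T₁, T₂, r), S => ∃ S₁ ⊆ S, ∃ S₂ ⊆ S,
      Emb D h T₁ S₁ ∧ Emb D h T₂ S₂ ∧ ∀ a ∈ S₁, ∀ b ∈ S₂, D a b = r

variable {K α : Type} (D : α → α → K)

theorem Emb.mono' {h : ℕ} {T : LT K h} {S S' : Finset α} (hSS : S ⊆ S')
    (hT : Emb D h T S) : Emb D h T S' := by
  cases h with
  | zero => exact Finset.Nonempty.mono hSS hT
  | succ h =>
    obtain ⟨T₁, T₂, r⟩ := T
    obtain ⟨S₁, h₁, S₂, h₂, e₁, e₂, hD⟩ := hT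
    exact ⟨S₁, h₁.trans hSS, S₂, h₂.trans hSS, e₁, e₂, hD⟩

theorem Emb.nonempty' {h : ℕ} {T : LT K h} {S : Finset α}
    (hT : Emb D h T S) : S.Nonempty := by
  induction h generalizing S with
  | zero => exact hT
  | succ h ih =>
    obtain ⟨T₁, T₂, r⟩ := T
    obtain ⟨S₁, h₁, S₂, h₂, e₁, e₂, hD⟩ := hT
    exact (ih e₁).mono h₁

variable [Fintype K]

open Classical in
/-- The labelled trees of depth `h` embedding into `S`. -/
noncomputable def good (h : ℕ) (S : Finset α) : Finset (LT K h) :=
  univ.filter (fun T => Emb D h T S)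

theorem mem_good {h : ℕ} {S : Finset α} {T : LT K h} : T ∈ good D h S ↔ Emb D h T S := by
  simp [good]

theorem good_mono {h : ℕ} {S S' : Finset α} (hSS : S ⊆ S') : good D h S ⊆ good D h S' := by
  intro T hT
  rw [mem_good] at hT ⊢
  exact hT.mono' D hSS

theorem good_empty (h : ℕ) : good D h (∅ : Finset α) = ∅ := by
  apply Finset.eq_empty_of_forall_notMem
  intro T hT
  rw [mem_good] at hT
  exact absurd (hT.nonempty' D) (by simp)

open Classical in
/-- Common neighbourhood. -/
noncomputable def nb (S : Finset α) (r : K) (a : α) : Finset α := S.filter (fun b => D a b = r)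

open Classical in
/-- Elements of `S` all of whose... -/
noncomputable def Gam (h : ℕ) (S : Finset α) (r : K) (T : LT K h) : Finset α :=
  S.filter (fun a => Emb D h T (nb D S r a))

omit [Fintype K] in
theorem emb_succ {h : ℕ} {S : Finset α} {T₁ T₂ : LT K h} {r : K}
    (hT : Emb D (h + 1) (T₁, T₂, r) S) :
    Emb D h T₁ S ∧ Emb D h T₂ S ∧ Emb D h T₁ (Gam D h S r T₂) := by
  obtain ⟨S₁, h₁, S₂, h₂, e₁, e₂, hD⟩ := hT
  refine ⟨e₁.mono' D h₁, e₂.mono' D h₂, ?_⟩
  refine Emb.mono' D (S := S₁) ?_ e₁
  intro a ha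
  simp only [Gam, Finset.mem_filter]
  refine ⟨h₁ ha, ?_⟩
  refine Emb.mono' D (S := S₂) ?_ e₂
  intro b hb
  simp only [nb, Finset.mem_filter]
  exact ⟨h₂ hb, hD a ha b hb⟩

theorem card_LT_succ (h : ℕ) :
    Fintype.card (LT K (h + 1)) = Fintype.card (LT K h) * (Fintype.card (LT K h) * Fintype.card K) := by
  have : Fintype.card (LT K (h + 1)) = Fintype.card (LT K h × LT K h × K) := by
    apply Fintype.card_congr
    exact Equiv.refl _
  rw [this, Fintype.card_prod, Fintype.card_prod]

theorem card_LT_pos [Nonempty K] (h : ℕ) : 0 < Fintype.card (LT K h) := by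
  induction h with
  | zero => 
    have : Fintype.card (LT K 0) = Fintype.card Unit := Fintype.card_congr (Equiv.refl _)
    rw [this]; simp
  | succ h ih =>
    rw [card_LT_succ]
    have := Fintype.card_pos (α := K)
    positivity

open Classical in
/-- Elements of `S` having at least `s` neighbours of colour `r`. -/
noncomputable def bigV (S : Finset α) (s : ℝ) (r : K) : Finset α :=
  S.filter (fun a => s ≤ ((nb D S r a).card : ℝ))

open Classical in
/-- Root labels for which there are many big elements. -/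
noncomputable def badK (S : Finset α) (s : ℝ) : Finset K :=
  univ.filter (fun r => s / 2 ≤ ((bigV D S s r).card : ℝ))

theorem sum_nb (S : Finset α) :
    ∑ r : K, ∑ a ∈ S, ((nb D S r a).card : ℝ) = (S.card : ℝ) ^ 2 := by
  classical
  rw [Finset.sum_comm]
  have : ∀ a ∈ S, ∑ r : K, ((nb D S r a).card : ℝ) = S.card := by
    intro a _
    have := Finset.card_eq_sum_card_fiberwise (f := fun b => D a b) (s := S) (t := univ)
      (by intro x _; simp)
    rw [this]
    push_cast
    apply Finset.sum_congr rfl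
    intro r _
    rw [nb]
  rw [Finset.sum_congr rfl this]
  simp [sq]

omit [Fintype K] in
theorem bigV_mul_le (S : Finset α) (s : ℝ) (r : K) :
    ((bigV D S s r).card : ℝ) * s ≤ ∑ a ∈ S, ((nb D S r a).card : ℝ) := by
  classical
  have e1 : ((bigV D S s r).card : ℝ) * s = ∑ a ∈ bigV D S s r, s := by simp
  have e2 : ∑ a ∈ bigV D S s r, s ≤ ∑ a ∈ bigV D S s r, ((nb D S r a).card : ℝ) := by
    apply Finset.sum_le_sum
    intro a ha
    exact (Finset.mem_filter.1 ha).2
  have e3 : ∑ a ∈ bigV D S s r, ((nb D S r a).card : ℝ) ≤ ∑ a ∈ S, ((nb D S r a).card : ℝ) := by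
    apply Finset.sum_le_sum_of_subset_of_nonneg (Finset.filter_subset _ _)
    intros; positivity
  linarith

theorem badK_card (S : Finset α) (ρ s : ℝ) (hs : 0 < s)
    (hS : (S.card : ℝ) ≤ ρ * s) : ((badK D S s).card : ℝ) ≤ 2 * ρ ^ 2 := by
  classical
  have e0 : ((badK D S s).card : ℝ) * (s / 2 * s) = ∑ r ∈ badK D S s, (s / 2 * s) := by simp
  have e1 : ∑ r ∈ badK D S s, (s / 2 * s) ≤ ∑ r ∈ badK D S s, ((bigV D S s r).card : ℝ) * s := by
    apply Finset.sum_le_sum
    intro r hr
    have := (Finset.mem_filter.1 hr).2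
    exact mul_le_mul_of_nonneg_right this hs.le
  have e2 : ∑ r ∈ badK D S s, ((bigV D S s r).card : ℝ) * s
      ≤ ∑ r ∈ badK D S s, ∑ a ∈ S, ((nb D S r a).card : ℝ) := by
    apply Finset.sum_le_sum
    intro r _
    exact bigV_mul_le D S s r
  have e3 : ∑ r ∈ badK D S s, ∑ a ∈ S, ((nb D S r a).card : ℝ)
      ≤ ∑ r : K, ∑ a ∈ S, ((nb D S r a).card : ℝ) := by
    apply Finset.sum_le_sum_of_subset_of_nonneg (Finset.subset_univ _)
    intro r _ _
    apply Finset.sum_nonneg
    intros; positivity
  have e4 := sum_nb D S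
  have h4 : (S.card : ℝ) ^ 2 ≤ (ρ * s) ^ 2 := pow_le_pow_left₀ (by positivity) hS 2
  have h5 : ((badK D S s).card : ℝ) * (s / 2 * s) ≤ (2 * ρ ^ 2) * (s / 2 * s) := by
    have : (ρ * s) ^ 2 = (2 * ρ ^ 2) * (s / 2 * s) := by ring
    linarith
  exact le_of_mul_le_mul_right h5 (by positivity)

open Classical in
/-- Trees with a large `Gam`. -/
noncomputable def fatT (h : ℕ) (S : Finset α) (s : ℝ) (r : K) : Finset (LT K h) :=
  (good D h S).filter (fun T₂ => s ≤ ((Gam D h S r T₂).card : ℝ))

theorem fatT_card (h : ℕ) (S : Finset α) (ρ s δ : ℝ) (hs : 0 < s) (hδ : 0 ≤ δ)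
    (hS : (S.card : ℝ) ≤ ρ * s)
    (IH : ∀ S' ⊆ S, (S'.card : ℝ) < s → ((good D h S').card : ℝ) ≤ δ)
    (r : K) (hr : r ∉ badK D S s) : ((fatT D h S s r).card : ℝ) ≤ 2 * ρ * δ := by
  classical
  have hAr : ((bigV D S s r).card : ℝ) < s / 2 := by
    by_contra hcon
    exact hr (Finset.mem_filter.2 ⟨Finset.mem_univ _, not_lt.1 hcon⟩)
  have h1 : ∀ T₂ ∈ fatT D h S s r, s / 2 ≤ (((Gam D h S r T₂) \ bigV D S s r).card : ℝ) := by
    intro T₂ hT₂
    have h2 := (Finset.mem_filter.1 hT₂).2
    have h3 : (Gam D h S r T₂).card ≤ ((Gam D h S r T₂) \ bigV D S s r).card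
        + (bigV D S s r).card :=
      Finset.card_le_card_sdiff_add_card (s := Gam D h S r T₂) (t := bigV D S s r)
    have h4 : ((Gam D h S r T₂).card : ℝ) ≤ ((Gam D h S r T₂) \ bigV D S s r).card
        + (bigV D S s r).card := by
      exact_mod_cast h3
    linarith
  have e1 : ∀ T₂, (((Gam D h S r T₂) \ bigV D S s r).card : ℝ)
      = ∑ a ∈ S \ bigV D S s r, (if Emb D h T₂ (nb D S r a) then (1 : ℝ) else 0) := by
    intro T₂
    have : (Gam D h S r T₂) \ bigV D S s r
        = (S \ bigV D S s r).filter (fun a => Emb D h T₂ (nb D S r a)) := by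
      ext a
      simp only [Gam, Finset.mem_sdiff, Finset.mem_filter]
      tauto
    rw [this, Finset.card_filter]
    push_cast
    rfl
  have e2 : ∀ a, ((good D h (nb D S r a)).card : ℝ)
      = ∑ T₂ : LT K h, (if Emb D h T₂ (nb D S r a) then (1 : ℝ) else 0) := by
    intro a
    rw [good, Finset.card_filter]
    push_cast
    apply Finset.sum_congr rfl
    intro T _
    congr
  have h2 : ∑ T₂ ∈ fatT D h S s r, (((Gam D h S r T₂) \ bigV D S s r).card : ℝ)
      ≤ ∑ a ∈ S \ bigV D S s r, ((good D h (nb D S r a)).card : ℝ) := by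
    have e3 : ∑ T₂ ∈ fatT D h S s r, (((Gam D h S r T₂) \ bigV D S s r).card : ℝ)
        = ∑ T₂ ∈ fatT D h S s r, ∑ a ∈ S \ bigV D S s r,
          (if Emb D h T₂ (nb D S r a) then (1 : ℝ) else 0) :=
      Finset.sum_congr rfl (fun T₂ _ => e1 T₂)
    rw [e3, Finset.sum_comm]
    apply Finset.sum_le_sum
    intro a _
    rw [e2]
    apply Finset.sum_le_sum_of_subset_of_nonneg (Finset.subset_univ _)
    intro T₂ _ _
    split_ifs <;> norm_num
  have h3 : ∑ a ∈ S \ bigV D S s r, ((good D h (nb D S r a)).card : ℝ) ≤ (ρ * s) * δ := by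
    have f1 : ∑ a ∈ S \ bigV D S s r, ((good D h (nb D S r a)).card : ℝ)
        ≤ ∑ a ∈ S \ bigV D S s r, δ := by
      apply Finset.sum_le_sum
      intro a ha
      rw [Finset.mem_sdiff] at ha
      apply IH _ (Finset.filter_subset _ _)
      by_contra hcon
      exact ha.2 (Finset.mem_filter.2 ⟨ha.1, not_lt.1 hcon⟩)
    have f2 : ∑ a ∈ S \ bigV D S s r, δ = ((S \ bigV D S s r).card : ℝ) * δ := by simp
    have f3 : ((S \ bigV D S s r).card : ℝ) ≤ ρ * s := by
      refine le_trans ?_ hS
      exact_mod_cast Finset.card_le_card Finset.sdiff_subset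
    have f4 := mul_le_mul_of_nonneg_right f3 hδ
    linarith
  have h4 : ((fatT D h S s r).card : ℝ) * (s / 2) ≤ (ρ * s) * δ := by
    have g1 : ((fatT D h S s r).card : ℝ) * (s / 2) = ∑ T₂ ∈ fatT D h S s r, (s / 2) := by simp
    have g2 : ∑ T₂ ∈ fatT D h S s r, (s / 2)
        ≤ ∑ T₂ ∈ fatT D h S s r, (((Gam D h S r T₂) \ bigV D S s r).card : ℝ) :=
      Finset.sum_le_sum h1
    linarith
  have h5 : ((fatT D h S s r).card : ℝ) * (s / 2) ≤ (2 * ρ * δ) * (s / 2) := by
    have : (ρ * s) * δ = (2 * ρ * δ) * (s / 2) := by ring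
    linarith
  exact le_of_mul_le_mul_right h5 (by positivity)

open Classical in
/-- Pairs of trees which, with root label `r`, embed into `S`. -/
noncomputable def prs (h : ℕ) (S : Finset α) (r : K) : Finset (LT K h × LT K h) :=
  (good D h S ×ˢ good D h S).filter (fun p => Emb D (h + 1) (p.1, p.2, r) S)

theorem good_succ_le (h : ℕ) (S : Finset α) :
    ((good D (h + 1) S).card : ℝ) ≤ ∑ r : K, ((prs D h S r).card : ℝ) := by
  classical
  have h1 : (good D (h + 1) S).card ≤ ((univ : Finset K).sigma (fun r => prs D h S r)).card := by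
    apply Finset.card_le_card_of_injOn
      (fun (T : LT K (h + 1)) => (⟨T.2.2, (T.1, T.2.1)⟩ : Σ _ : K, LT K h × LT K h))
    · intro T hT
      obtain ⟨T₁, T₂, r⟩ := T
      have hT' : Emb D (h + 1) (T₁, T₂, r) S := (mem_good D).1 hT
      obtain ⟨e₁, e₂, -⟩ := emb_succ D hT'
      simp only [Finset.coe_sigma, Set.mem_sigma_iff, Finset.mem_coe, Finset.mem_univ, true_and,
        prs, Finset.mem_filter, Finset.mem_product, mem_good]
      exact ⟨⟨e₁, e₂⟩, hT'⟩
    · intro T _ T' _ hTT
      obtain ⟨T₁, T₂, r⟩ := T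
      obtain ⟨T₁', T₂', r'⟩ := T'
      simp only [Sigma.mk.injEq, heq_eq_eq, Prod.mk.injEq] at hTT
      obtain ⟨rfl, rfl, rfl⟩ := hTT
      rfl
  rw [Finset.card_sigma] at h1
  exact_mod_cast h1

theorem prs_triv (h : ℕ) (S : Finset α) (r : K) :
    ((prs D h S r).card : ℝ) ≤ ((good D h S).card : ℝ) ^ 2 := by
  classical
  have : (prs D h S r).card ≤ (good D h S ×ˢ good D h S).card := Finset.card_filter_le _ _
  rw [Finset.card_product] at this
  have h' : ((prs D h S r).card : ℝ) ≤ (good D h S).card * (good D h S).card := by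
    exact_mod_cast this
  nlinarith

theorem prs_good (h : ℕ) (S : Finset α) (ρ s δ : ℝ) (hs : 0 < s) (hδ : 0 ≤ δ)
    (hS : (S.card : ℝ) ≤ ρ * s)
    (IH : ∀ S' ⊆ S, (S'.card : ℝ) < s → ((good D h S').card : ℝ) ≤ δ)
    (r : K) (hr : r ∉ badK D S s) :
    ((prs D h S r).card : ℝ) ≤ (1 + 2 * ρ) * δ * ((good D h S).card : ℝ) := by
  classical
  have hfat := fatT_card D h S ρ s δ hs hδ hS IH r hr
  have hE0 : (0 : ℝ) ≤ ((good D h S).card : ℝ) := by positivity
  have hfib : ((prs D h S r).card : ℝ) ≤ ∑ T₂ ∈ good D h S,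
      (((good D h S).filter (fun T₁ => Emb D (h + 1) (T₁, T₂, r) S)).card : ℝ) := by
    have h1 : (prs D h S r).card ≤ ((good D h S).sigma (fun T₂ =>
        (good D h S).filter (fun T₁ => Emb D (h + 1) (T₁, T₂, r) S))).card := by
      apply Finset.card_le_card_of_injOn
        (fun (p : LT K h × LT K h) => (⟨p.2, p.1⟩ : Σ _ : LT K h, LT K h))
      · intro p hp
        have hp' := Finset.mem_filter.1 (Finset.mem_coe.1 hp)
        have hp1 := Finset.mem_product.1 hp'.1
        simp only [Finset.coe_sigma, Set.mem_sigma_iff, Finset.mem_coe, Finset.mem_filter]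
        exact ⟨hp1.2, hp1.1, hp'.2⟩
      · intro p _ q _ hpq
        simp only [Sigma.mk.injEq, heq_eq_eq] at hpq
        exact Prod.ext hpq.2 hpq.1
    rw [Finset.card_sigma] at h1
    exact_mod_cast h1
  have hsplit : ∑ T₂ ∈ good D h S,
      (((good D h S).filter (fun T₁ => Emb D (h + 1) (T₁, T₂, r) S)).card : ℝ)
      ≤ ∑ T₂ ∈ good D h S,
        (δ + (if T₂ ∈ fatT D h S s r then ((good D h S).card : ℝ) else 0)) := by
    apply Finset.sum_le_sum
    intro T₂ hT₂
    by_cases hTF : T₂ ∈ fatT D h S s r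
    · rw [if_pos hTF]
      have : (((good D h S).filter (fun T₁ => Emb D (h + 1) (T₁, T₂, r) S)).card : ℝ)
          ≤ ((good D h S).card : ℝ) := by
        exact_mod_cast Finset.card_filter_le _ _
      linarith
    · rw [if_neg hTF, add_zero]
      have hlt : ((Gam D h S r T₂).card : ℝ) < s := by
        by_contra hcon
        exact hTF (Finset.mem_filter.2 ⟨hT₂, not_lt.1 hcon⟩)
      refine le_trans ?_ (IH (Gam D h S r T₂) (Finset.filter_subset _ _) hlt)
      have : (good D h S).filter (fun T₁ => Emb D (h + 1) (T₁, T₂, r) S)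
          ⊆ good D h (Gam D h S r T₂) := by
        intro T₁ hT₁
        rw [mem_good]
        exact (emb_succ D (Finset.mem_filter.1 hT₁).2).2.2
      exact_mod_cast Finset.card_le_card this
  have hsum : ∑ T₂ ∈ good D h S,
      (δ + (if T₂ ∈ fatT D h S s r then ((good D h S).card : ℝ) else 0))
      ≤ (1 + 2 * ρ) * δ * ((good D h S).card : ℝ) := by
    rw [Finset.sum_add_distrib, Finset.sum_ite_mem]
    have h1 : ∑ T₂ ∈ good D h S, δ = ((good D h S).card : ℝ) * δ := by simp
    have h2 : ∑ T₂ ∈ good D h S ∩ fatT D h S s r, ((good D h S).card : ℝ)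
        ≤ 2 * ρ * δ * ((good D h S).card : ℝ) := by
      rw [Finset.sum_const, nsmul_eq_mul]
      apply mul_le_mul_of_nonneg_right _ hE0
      refine le_trans ?_ hfat
      exact_mod_cast Finset.card_le_card Finset.inter_subset_right
    rw [h1]
    linarith
  exact hfib.trans (hsplit.trans hsum)

/-- The one-step estimate. -/
theorem step (h : ℕ) (S : Finset α) (ρ s δ : ℝ) (hs : 0 < s) (hρ : 0 ≤ ρ) (hδ : 0 ≤ δ)
    (hS : (S.card : ℝ) ≤ ρ * s)
    (IH : ∀ S' ⊆ S, (S'.card : ℝ) < s → ((good D h S').card : ℝ) ≤ δ) :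
    ((good D (h + 1) S).card : ℝ) ≤ 2 * ρ ^ 2 * ((good D h S).card : ℝ) ^ 2
      + Fintype.card K * ((1 + 2 * ρ) * δ * ((good D h S).card : ℝ)) := by
  classical
  have h0 := good_succ_le D h S
  have hnn : 0 ≤ (1 + 2 * ρ) * δ * ((good D h S).card : ℝ) := by positivity
  have h1 : ∑ r : K, ((prs D h S r).card : ℝ)
      ≤ ∑ r : K, ((if r ∈ badK D S s then ((good D h S).card : ℝ) ^ 2 else 0)
        + (1 + 2 * ρ) * δ * ((good D h S).card : ℝ)) := by
    apply Finset.sum_le_sum
    intro r _
    by_cases hr : r ∈ badK D S s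
    · rw [if_pos hr]
      linarith [prs_triv D h S r]
    · rw [if_neg hr]
      linarith [prs_good D h S ρ s δ hs hδ hS IH r hr]
  have h2 : ∑ r : K, ((if r ∈ badK D S s then ((good D h S).card : ℝ) ^ 2 else 0)
        + (1 + 2 * ρ) * δ * ((good D h S).card : ℝ))
      = ((badK D S s).card : ℝ) * ((good D h S).card : ℝ) ^ 2
        + Fintype.card K * ((1 + 2 * ρ) * δ * ((good D h S).card : ℝ)) := by
    rw [Finset.sum_add_distrib, Finset.sum_ite_mem]
    simp
  have h3 : ((badK D S s).card : ℝ) * ((good D h S).card : ℝ) ^ 2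
      ≤ 2 * ρ ^ 2 * ((good D h S).card : ℝ) ^ 2 :=
    mul_le_mul_of_nonneg_right (badK_card D S ρ s hs hS) (by positivity)
  linarith

/-- Main estimate: at depth `3 * j` or more, a set with fewer than `ρ ^ j` elements hosts at most
a fraction `1 / (4 ρ²)` of all labelled trees. -/
theorem good_card_le (ρ : ℝ) (hρ : 4 ≤ ρ) (hK : 8 * ρ ^ 3 ≤ Fintype.card K) (j : ℕ) :
    ∀ (t : ℕ) (S : Finset α), (S.card : ℝ) < ρ ^ j →
      ((good D (3 * j + t) S).card : ℝ) ≤ 1 / (4 * ρ ^ 2) * Fintype.card (LT K (3 * j + t)) := by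
  have hρ0 : (0 : ℝ) < ρ := by linarith
  have hKpos : (0 : ℝ) < Fintype.card K := lt_of_lt_of_le (by positivity) hK
  have hKne : Nonempty K := by
    rw [← Fintype.card_pos_iff]
    exact_mod_cast hKpos
  induction j with
  | zero =>
    intro t S hS
    have : S = ∅ := by
      rw [pow_zero] at hS
      have : S.card < 1 := by exact_mod_cast hS
      exact Finset.card_eq_zero.1 (by omega)
    subst this
    rw [good_empty]
    simp
    positivity
  | succ j ih =>
    intro t S hS
    -- decay
    have key : ∀ t : ℕ, ((good D (3 * j + t) S).card : ℝ)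
        ≤ (1 / ρ) ^ t * Fintype.card (LT K (3 * j + t)) := by
      intro t
      induction t with
      | zero =>
        rw [pow_zero, one_mul]
        exact_mod_cast Finset.card_le_univ _
      | succ t iht =>
        set N : ℝ := (Fintype.card (LT K (3 * j + t)) : ℝ) with hN
        have hNpos : 0 < N := by
          rw [hN]
          exact_mod_cast card_LT_pos (K := K) (3 * j + t)
        have hst := step D (3 * j + t) S ρ (ρ ^ j) (1 / (4 * ρ ^ 2) * N) (by positivity)
          hρ0.le (by positivity) (by rw [pow_succ] at hS; linarith)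
          (fun S' _ hS' => ih t S' hS')
        have hcard : (Fintype.card (LT K (3 * j + (t + 1))) : ℝ) = N * (N * Fintype.card K) := by
          have := card_LT_succ (K := K) (3 * j + t)
          rw [hN]
          exact_mod_cast this
        rw [hcard]
        set E : ℝ := ((good D (3 * j + t) S).card : ℝ) with hE
        have hE0 : 0 ≤ E := by positivity
        have hEN : E ≤ N := by
          rw [hE, hN]
          exact_mod_cast Finset.card_le_univ _
        have h1 : 2 * ρ ^ 2 * E ^ 2 ≤ (1 / (4 * ρ)) * Fintype.card K * N * E := by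
          have : 2 * ρ ^ 2 ≤ (1 / (4 * ρ)) * Fintype.card K := by
            rw [div_mul_eq_mul_div, le_div_iff₀ (by positivity)]
            nlinarith
          calc 2 * ρ ^ 2 * E ^ 2 ≤ ((1 / (4 * ρ)) * Fintype.card K) * E ^ 2 :=
                mul_le_mul_of_nonneg_right this (by positivity)
            _ = ((1 / (4 * ρ)) * Fintype.card K * E) * E := by ring
            _ ≤ ((1 / (4 * ρ)) * Fintype.card K * E) * N :=
                mul_le_mul_of_nonneg_left hEN (by positivity)
            _ = _ := by ring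
        have h2 : (Fintype.card K : ℝ) * ((1 + 2 * ρ) * (1 / (4 * ρ ^ 2) * N) * E)
            ≤ (3 / (4 * ρ)) * Fintype.card K * N * E := by
          have : (1 + 2 * ρ) * (1 / (4 * ρ ^ 2)) ≤ 3 / (4 * ρ) := by
            rw [mul_one_div, div_le_div_iff₀ (by positivity) (by positivity)]
            nlinarith
          calc (Fintype.card K : ℝ) * ((1 + 2 * ρ) * (1 / (4 * ρ ^ 2) * N) * E)
              = ((1 + 2 * ρ) * (1 / (4 * ρ ^ 2))) * (Fintype.card K * N * E) := by ring
            _ ≤ (3 / (4 * ρ)) * (Fintype.card K * N * E) :=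
                mul_le_mul_of_nonneg_right this (by positivity)
            _ = _ := by ring
        have h3 : ((good D (3 * j + (t + 1)) S).card : ℝ)
            ≤ (1 / ρ) * (Fintype.card K * N * E) := by
          have e : (1 / (4 * ρ)) * Fintype.card K * N * E + (3 / (4 * ρ)) * Fintype.card K * N * E
              = (1 / ρ) * (Fintype.card K * N * E) := by
            field_simp
            ring
          have : ((good D (3 * j + (t + 1)) S).card : ℝ) = ((good D (3 * j + t + 1) S).card : ℝ) :=
            rfl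
          linarith
        calc ((good D (3 * j + (t + 1)) S).card : ℝ) ≤ (1 / ρ) * (Fintype.card K * N * E) := h3
          _ ≤ (1 / ρ) * (Fintype.card K * N * ((1 / ρ) ^ t * N)) := by
              apply mul_le_mul_of_nonneg_left _ (by positivity)
              exact mul_le_mul_of_nonneg_left iht (by positivity)
          _ = _ := by ring
    have h1 := key (3 + t)
    have e : 3 * j + (3 + t) = 3 * (j + 1) + t := by ring
    rw [e] at h1
    refine h1.trans ?_
    apply mul_le_mul_of_nonneg_right _ (by positivity)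
    have hle : (1 / ρ) ≤ 1 := by
      rw [div_le_one hρ0]; linarith
    calc (1 / ρ) ^ (3 + t) = (1 / ρ) ^ 3 * (1 / ρ) ^ t := by ring
      _ ≤ (1 / ρ) ^ 3 * 1 := by
          apply mul_le_mul_of_nonneg_left _ (by positivity)
          exact pow_le_one₀ (by positivity) hle
      _ ≤ 1 / (4 * ρ ^ 2) := by
          rw [mul_one, one_div_pow]
          apply one_div_le_one_div_of_le (by positivity)
          nlinarith

/-- A set with fewer than `ρ ^ j` elements fails to host some labelled tree of depth `3 * j`. -/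
theorem exists_not_emb (ρ : ℝ) (hρ : 4 ≤ ρ) (hK : 8 * ρ ^ 3 ≤ Fintype.card K) (j : ℕ)
    (S : Finset α) (hS : (S.card : ℝ) < ρ ^ j) : ∃ T : LT K (3 * j), ¬ Emb D (3 * j) T S := by
  by_contra hcon
  push Not at hcon
  have h1 := good_card_le D ρ hρ hK j 0 S hS
  have h2 : good D (3 * j + 0) S = univ := by
    apply Finset.eq_univ_of_forall
    intro T
    rw [mem_good]
    exact hcon T
  rw [h2, Finset.card_univ] at h1
  have hKpos : (0 : ℝ) < Fintype.card K := lt_of_lt_of_le (by positivity) hK
  have hKne : Nonempty K := by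
    rw [← Fintype.card_pos_iff]
    exact_mod_cast hKpos
  have hN : (0 : ℝ) < Fintype.card (LT K (3 * j + 0)) := by
    exact_mod_cast card_LT_pos (K := K) (3 * j + 0)
  have h3 : 1 / (4 * ρ ^ 2) < (1 : ℝ) := by
    rw [div_lt_one (by positivity)]
    nlinarith
  nlinarith

end Pool.Agent.Work.MP_974ce4_co
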