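import Mathlib

/-!
# Definitions: clique-width, twin-width, adjacency labelling schemes
-/

namespace Pool.Agent.Work.MP_974ce4_co

open SimpleGraph

/-- `CW k V G l` says that the graph `G` together with the labelling `l` of its vertices by
`k` labels can be built by the four clique-width operations: create a single labelled vertex;
take the disjoint union of two labelled graphs; for labels `i ≠ j` add every edge between a
vertex labelled `i` and a vertex labelled `j`; change every label `i` into label `j`.
(The constructor `iso` only renames the vertices.) -/
inductive CW (k : ℕ) : (V : Type) → SimpleGraph V → (V → Fin k) → Prop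
  | vertex (i : Fin k) : CW k Unit ⊥ (fun _ => i)
  | union {V W : Type} {G : SimpleGraph V} {H : SimpleGraph W} {l : V → Fin k} {l' : W → Fin k} :
      CW k V G l → CW k W H l' → CW k (V ⊕ W) (G ⊕g H) (Sum.elim l l')
  | join {V : Type} {G : SimpleGraph V} {l : V → Fin k} (i j : Fin k) : i ≠ j →
      CW k V G l → CW k V (G ⊔ SimpleGraph.fromRel (fun x y => l x = i ∧ l y = j)) l
  | relabel {V : Type} {G : SimpleGraph V} {l : V → Fin k} (i j : Fin k) :
      CW k V G l → CW k V G (fun v => if l v = i then j else l v)
  | iso {V W : Type} {G : SimpleGraph V} {H : SimpleGraph W} {l : V → Fin k} (e : G ≃g H) :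
      CW k V G l → CW k W H (fun w => l (e.symm w))

/-- The clique-width of `G` is at most `k`. -/
def CliqueWidthLE (k : ℕ) {V : Type} (G : SimpleGraph V) : Prop :=
  ∃ l : V → Fin k, CW k V G l

/-- Let the map `p : V → V` stand for the partition of `V` into its fibres (the part named `a`
is `{x | p x = a}`).  The parts named `a` and `b` form a red pair if they are distinct and
between them there is both an edge and a non-edge of `G`. -/
def RedPair {V : Type} (G : SimpleGraph V) (p : V → V) (a b : V) : Prop :=
  a ≠ b ∧ (∃ x y, p x = a ∧ p y = b ∧ G.Adj x y) ∧ (∃ x y, p x = a ∧ p y = b ∧ ¬ G.Adj x y)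

/-- Every part is in at most `d` red pairs. -/
def RedDegLE {V : Type} (G : SimpleGraph V) (d : ℕ) (p : V → V) : Prop :=
  ∀ a : V, {b : V | RedPair G p a b}.encard ≤ d

open Classical in
/-- Merge the part named `a` into the part named `b`. -/
noncomputable def mergeParts {V : Type} (p : V → V) (a b : V) : V → V :=
  fun v => if p v = a then b else p v

/-- The partitions that can be reached from the partition into singletons by repeatedly merging
two parts, in such a way that all partitions met have red degree at most `d`. -/
inductive Contracts {V : Type} (G : SimpleGraph V) (d : ℕ) : (V → V) → Prop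
  | start : Contracts G d id
  | merge (p : V → V) (a b : V) : Contracts G d p → RedDegLE G d (mergeParts p a b) →
      Contracts G d (mergeParts p a b)

/-- The twin-width of `G` is at most `d`: a partition with at most one part can be reached from
the partition into singletons through partitions of red degree at most `d`. -/
def TwinWidthLE (d : ℕ) {V : Type} (G : SimpleGraph V) : Prop :=
  ∃ p : V → V, Contracts G d p ∧ ∀ u v, p u = p v

/-- `HasAdjLabeling C f`: the graph class `C` admits an adjacency labelling scheme of size `f`.
There is one decoder `D` for the whole class such that the vertices of every finite graph `G` in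
the class, with `n` vertices, can be given binary strings of length at most `f n` in such a way
that distinct vertices `u`, `v` are adjacent iff `D` accepts their strings. -/
def HasAdjLabeling (C : (V : Type) → SimpleGraph V → Prop) (f : ℕ → ℝ) : Prop :=
  ∃ D : List Bool → List Bool → Bool, ∀ (V : Type) [Fintype V] (G : SimpleGraph V), C V G →
    ∃ ℓ : V → List Bool, (∀ v, ((ℓ v).length : ℝ) ≤ f (Fintype.card V)) ∧
      ∀ u v, u ≠ v → (G.Adj u v ↔ D (ℓ u) (ℓ v) = true)

end Pool.Agent.Work.MP_974ce4_co
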