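import Pool.Agent.Work.MP_974ce4_co.Trees

/-!
# The lower bound on label sizes
-/

namespace Pool.Agent.Work.MP_974ce4_co

open SimpleGraph Filter

/-- The binary strings of length at most `L`. -/
def strings (L : ℕ) : Finset (List Bool) :=
  (Finset.range (L + 1)).biUnion
    (fun i => (Finset.univ : Finset (Fin i → Bool)).image (fun v => List.ofFn v))

theorem mem_strings {L : ℕ} {s : List Bool} (hs : s.length ≤ L) : s ∈ strings L := by
  simp only [strings, Finset.mem_biUnion, Finset.mem_range, Finset.mem_image, Finset.mem_univ,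
    true_and]
  exact ⟨s.length, by omega, s.get, List.ofFn_get s⟩

theorem card_strings (L : ℕ) : (strings L).card ≤ 2 ^ (L + 1) := by
  calc (strings L).card ≤ ∑ i ∈ Finset.range (L + 1),
        ((Finset.univ : Finset (Fin i → Bool)).image (fun v => List.ofFn v)).card :=
        Finset.card_biUnion_le
    _ ≤ ∑ i ∈ Finset.range (L + 1), 2 ^ i := by
        apply Finset.sum_le_sum
        intro i _
        refine Finset.card_image_le.trans ?_
        simp
    _ ≤ 2 ^ (L + 1) := by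
        have := Nat.geomSum_eq (le_refl 2) (L + 1)
        rw [this]
        simp

/-- Main quantitative statement: a labelling scheme of size `f` for the graphs of clique-width at
most `6 a` satisfies `(3 a² - 1) j ≤ 3 a (f n + 1)` for `n = 3 a 2 ^ (3 j)`. -/
theorem lower_bound (a : ℕ) (ha : 1 ≤ a) (f : ℕ → ℝ)
    (hf : HasAdjLabeling (fun _ G => CliqueWidthLE (3 * a + 3 * a) G) f) (j : ℕ) :
    ((3 * a ^ 2 - 1 : ℕ) : ℝ) * j ≤ 3 * a * (f (3 * a * 2 ^ (3 * j)) + 1) := by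
  obtain ⟨Dec, hDec⟩ := hf
  set n : ℕ := 3 * a * 2 ^ (3 * j) with hn
  set L : ℕ := ⌊f n⌋₊ with hL
  set ρ : ℝ := (2 : ℝ) ^ (3 * a ^ 2 - 1) with hρdef
  have ha2 : 1 ≤ a ^ 2 := Nat.one_le_pow _ _ ha
  have hexp : 3 + (3 * a ^ 2 - 1) * 3 = (3 * a) * (3 * a) := by
    have : 1 ≤ 3 * a ^ 2 := by omega
    zify [this]
    ring
  have hρ : 4 ≤ ρ := by
    rw [hρdef]
    calc (4 : ℝ) = 2 ^ 2 := by norm_num
      _ ≤ 2 ^ (3 * a ^ 2 - 1) := pow_le_pow_right₀ (by norm_num) (by omega)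
  have hK : 8 * ρ ^ 3 ≤ (Fintype.card (Fin (3 * a) × Fin (3 * a) → Bool) : ℝ) := by
    have h1 : Fintype.card (Fin (3 * a) × Fin (3 * a) → Bool) = 2 ^ ((3 * a) * (3 * a)) := by
      simp
    rw [h1, hρdef, ← pow_mul, ← hexp]
    push_cast
    rw [pow_add]
    norm_num
  -- every tree embeds
  have hall : ∀ T : LT (Fin (3 * a) × Fin (3 * a) → Bool) (3 * j),
      Emb (hostD Dec) (3 * j) T (Fintype.piFinset (fun _ : Fin (3 * a) => strings L)) ∧
      0 ≤ f n := by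
    intro T
    obtain ⟨ℓ, hlen, hadj⟩ := hDec (VT (3 * a) (3 * j)) (treeGraph T)
      ⟨_, cw_treeGraph (by omega) T⟩
    rw [card_VT, ← hn] at hlen
    have hmem : ∀ x, ℓ x ∈ strings L := by
      intro x
      apply mem_strings
      rw [hL]
      exact Nat.le_floor (hlen x)
    obtain ⟨S, hS, hemb, _⟩ := emb_of_labelling Dec (strings L) T ℓ hmem hadj
    refine ⟨hemb.mono' _ hS, ?_⟩
    have hpos : 0 < Fintype.card (VT (3 * a) (3 * j)) := by
      rw [card_VT]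
      positivity
    obtain ⟨x⟩ := Fintype.card_pos_iff.1 hpos
    exact le_trans (by positivity) (hlen x)
  have hT0 : Nonempty (LT (Fin (3 * a) × Fin (3 * a) → Bool) (3 * j)) := by
    rw [← Fintype.card_pos_iff]
    exact card_LT_pos _
  have hfn : 0 ≤ f n := (hall hT0.some).2
  have hcard : ρ ^ j ≤
      ((Fintype.piFinset (fun _ : Fin (3 * a) => strings L)).card : ℝ) := by
    by_contra hcon
    obtain ⟨T, hT⟩ := exists_not_emb (hostD Dec) ρ hρ hK j
      (Fintype.piFinset (fun _ : Fin (3 * a) => strings L)) (not_le.1 hcon)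
    exact hT (hall T).1
  have hcard2 : ((Fintype.piFinset (fun _ : Fin (3 * a) => strings L)).card : ℝ)
      ≤ (2 : ℝ) ^ ((L + 1) * (3 * a)) := by
    rw [Fintype.card_piFinset]
    simp only [Finset.prod_const, Finset.card_univ, Fintype.card_fin]
    rw [pow_mul (2 : ℝ) (L + 1) (3 * a)]
    rw [Nat.cast_pow]
    apply pow_le_pow_left₀ (by positivity)
    exact_mod_cast card_strings L
  have hpow : (2 : ℝ) ^ ((3 * a ^ 2 - 1) * j) ≤ (2 : ℝ) ^ ((L + 1) * (3 * a)) := by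
    rw [pow_mul]
    exact hcard.trans hcard2
  have hle : (3 * a ^ 2 - 1) * j ≤ (L + 1) * (3 * a) :=
    (pow_le_pow_iff_right₀ (by norm_num : (1 : ℝ) < 2)).1 hpow
  have hle' : ((3 * a ^ 2 - 1 : ℕ) : ℝ) * j ≤ ((L : ℝ) + 1) * (3 * a) := by
    exact_mod_cast hle
  have hLf : (L : ℝ) ≤ f n := Nat.floor_le hfn
  calc ((3 * a ^ 2 - 1 : ℕ) : ℝ) * j ≤ ((L : ℝ) + 1) * (3 * a) := hle'
    _ ≤ (f n + 1) * (3 * a) := by
        apply mul_le_mul_of_nonneg_right (by linarith) (by positivity)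
    _ = _ := by ring

/-- There is no universal constant for clique-width. -/
theorem no_uniform_constant (c : ℝ) : ∃ a : ℕ, 1 ≤ a ∧ (a : ℝ) ≤ 3 * |c| + 5 ∧
    ¬ ∃ ε : ℕ → ℝ, Tendsto ε atTop (nhds 0) ∧
    HasAdjLabeling (fun _ G => CliqueWidthLE (3 * a + 3 * a) G)
      (fun n => (c + ε n) * Real.logb 2 n) := by
  have habs : 0 ≤ |c| := abs_nonneg c
  obtain ⟨a, ha, ha'⟩ : ∃ a : ℕ, 3 * (|c| + 1) + 1 ≤ (a : ℝ) ∧ (a : ℝ) ≤ 3 * |c| + 5 := by
    refine ⟨⌈3 * (|c| + 1) + 1⌉₊, Nat.le_ceil _, ?_⟩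
    have := Nat.ceil_lt_add_one (show (0 : ℝ) ≤ 3 * (|c| + 1) + 1 by positivity)
    linarith
  have ha1 : 1 ≤ a := by
    have : (1 : ℝ) ≤ a := by linarith
    exact_mod_cast this
  refine ⟨a, ha1, ha', ?_⟩
  rintro ⟨ε, hε, hlab⟩
  have hlow := lower_bound a ha1 _ hlab
  -- eventually `ε` is at most `1`
  have hev : ∀ᶠ n in atTop, ε n ≤ 1 := by
    have := hε.eventually (gt_mem_nhds (show (0 : ℝ) < 1 by norm_num))
    filter_upwards [this] with n hn using hn.le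
  obtain ⟨N, hN⟩ := eventually_atTop.1 hev
  set C : ℝ := 3 * a * ((|c| + 1) * Real.logb 2 (3 * a) + 1) with hC
  obtain ⟨j₀, hj₀⟩ := exists_nat_gt (max (N : ℝ) C)
  have hjN : N ≤ j₀ := by
    have : (N : ℝ) < j₀ := lt_of_le_of_lt (le_max_left _ _) hj₀
    exact_mod_cast this.le
  have hjC : C < j₀ := lt_of_le_of_lt (le_max_right _ _) hj₀
  set n : ℕ := 3 * a * 2 ^ (3 * j₀) with hn
  have hnN : N ≤ n := by
    have h1 : j₀ ≤ 2 ^ (3 * j₀) := by
      have h2 : 3 * j₀ < 2 ^ (3 * j₀) := Nat.lt_two_pow_self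
      omega
    calc N ≤ j₀ := hjN
      _ ≤ 2 ^ (3 * j₀) := h1
      _ ≤ 3 * a * 2 ^ (3 * j₀) := Nat.le_mul_of_pos_left _ (by omega)
  have h1 := hlow j₀
  rw [← hn] at h1
  have hlog : Real.logb 2 (n : ℝ) = 3 * j₀ + Real.logb 2 (3 * a) := by
    rw [hn]
    push_cast
    rw [Real.logb_mul (by positivity) (by positivity), Real.logb_pow, Real.logb_self_eq_one
      (by norm_num)]
    push_cast
    ring
  have hlog3 : 0 ≤ Real.logb 2 (3 * a) := by
    apply Real.logb_nonneg (by norm_num)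
    have : (1 : ℝ) ≤ a := by exact_mod_cast ha1
    linarith
  have hlogn : 0 ≤ Real.logb 2 (n : ℝ) := by
    rw [hlog]; positivity
  have h2 : (c + ε n) * Real.logb 2 n ≤ (|c| + 1) * (3 * j₀ + Real.logb 2 (3 * a)) := by
    rw [← hlog]
    apply mul_le_mul_of_nonneg_right _ hlogn
    linarith [le_abs_self c, hN n hnN]
  have haR : (1 : ℝ) ≤ a := by exact_mod_cast ha1
  have hcast : ((3 * a ^ 2 - 1 : ℕ) : ℝ) = 3 * (a : ℝ) ^ 2 - 1 := by
    have : 1 ≤ 3 * a ^ 2 := by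
      have := Nat.one_le_pow 2 a ha1
      omega
    push_cast [Nat.cast_sub this]
    ring
  rw [hcast] at h1
  have h3 : (3 * (a : ℝ) ^ 2 - 1) * j₀ ≤ 3 * a * ((|c| + 1) * (3 * j₀ + Real.logb 2 (3 * a)) + 1) := by
    refine h1.trans ?_
    apply mul_le_mul_of_nonneg_left _ (by positivity)
    linarith
  have h4 : 3 * a * ((|c| + 1) * (3 * j₀ + Real.logb 2 (3 * a)) + 1)
      = 3 * a * (3 * (|c| + 1)) * j₀ + C := by
    rw [hC]; ring
  have hj0 : (0 : ℝ) ≤ j₀ := by positivity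
  have h5 : 3 * (a : ℝ) * (3 * (|c| + 1)) * j₀ ≤ 3 * a * (a - 1) * j₀ := by
    apply mul_le_mul_of_nonneg_right _ hj0
    apply mul_le_mul_of_nonneg_left _ (by positivity)
    linarith
  have h6 : (3 * (a : ℝ) - 1) * j₀ ≤ C := by nlinarith
  have h7 : (1 : ℝ) * j₀ ≤ (3 * (a : ℝ) - 1) * j₀ :=
    mul_le_mul_of_nonneg_right (by linarith) hj0
  linarith

end Pool.Agent.Work.MP_974ce4_co
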