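import Pool.Agent.Work.MP_974ce4_co.Core
import Pool.Agent.Work.MP_974ce4_co.Defs

/-!
# The graphs of node-labelled trees and their clique-width
-/

namespace Pool.Agent.Work.MP_974ce4_co

open SimpleGraph

/-! ### Closure properties of `CW` -/

theorem CW.of_eq {k : ℕ} {V : Type} {G G' : SimpleGraph V} {l l' : V → Fin k}
    (h : CW k V G l) (hG : G = G') (hl : l = l') : CW k V G' l' := by
  subst hG; subst hl; exact h

theorem CW.perm {k : ℕ} {V : Type} {G : SimpleGraph V} {l : V → Fin k} (π : Fin k ≃ Fin k)
    (h : CW k V G l) : CW k V G (fun v => π (l v)) := by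
  induction h with
  | vertex i => exact CW.vertex (π i)
  | union _ _ ih₁ ih₂ =>
    refine (CW.union ih₁ ih₂).of_eq rfl ?_
    funext x
    cases x <;> rfl
  | join i j hij _ ih =>
    refine (CW.join (π i) (π j) (fun h => hij (π.injective h)) ih).of_eq ?_ rfl
    congr 1
    simp
  | relabel i j _ ih =>
    refine (CW.relabel (π i) (π j) ih).of_eq rfl ?_
    funext v
    by_cases h : (‹_ → Fin k› v) = i
    · simp [h]
    · simp [h]
  | iso e _ ih =>
    exact CW.iso e ih

/-- Relabel by an idempotent map. -/
theorem CW.relabelAll {k : ℕ} {V : Type} {G : SimpleGraph V} {l : V → Fin k} (f : Fin k → Fin k)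
    (hf : ∀ i, f (f i) = f i) (h : CW k V G l) : CW k V G (fun v => f (l v)) := by
  classical
  have key : ∀ s : Finset (Fin k), CW k V G (fun v => if l v ∈ s then f (l v) else l v) := by
    intro s
    induction s using Finset.induction_on with
    | empty => simpa using h
    | insert i s his ih =>
      by_cases hfi : f i = i
      · refine ih.of_eq rfl ?_
        funext v
        by_cases h1 : l v = i
        · simp [h1, his, hfi]
        · simp [h1]
      · refine (CW.relabel i (f i) ih).of_eq rfl ?_
        funext v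
        by_cases h1 : l v = i
        · simp [h1, his]
        · by_cases h2 : l v ∈ s
          · have h3 : f (l v) ≠ i := by
              intro h4
              apply hfi
              rw [← h4, hf]
            simp [h1, h2, h3]
          · simp [h1, h2]
  refine (key Finset.univ).of_eq rfl ?_
  funext v
  simp

/-- Add the edges between several pairs of labels. -/
theorem CW.joinAll {k : ℕ} {V : Type} {G : SimpleGraph V} {l : V → Fin k}
    (R : Finset (Fin k × Fin k)) (hR : ∀ p ∈ R, p.1 ≠ p.2) (h : CW k V G l) :
    CW k V (G ⊔ SimpleGraph.fromRel (fun x y => (l x, l y) ∈ R)) l := by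
  classical
  induction R using Finset.induction_on with
  | empty =>
    refine h.of_eq ?_ rfl
    ext x y
    simp
  | insert p R hp ih =>
    have ih' := ih (fun q hq => hR q (Finset.mem_insert_of_mem hq))
    refine (CW.join p.1 p.2 (hR p (Finset.mem_insert_self _ _)) ih').of_eq ?_ rfl
    ext x y
    simp only [sup_adj, fromRel_adj, Finset.mem_insert, Prod.ext_iff]
    tauto

/-- Edgeless graphs with any labelling. -/
theorem CW.edgeless {k : ℕ} (n : ℕ) (l : Fin (n + 1) → Fin k) :
    CW k (Fin (n + 1)) ⊥ l := by
  induction n with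
  | zero =>
    have e : (⊥ : SimpleGraph Unit) ≃g (⊥ : SimpleGraph (Fin 1)) :=
      ⟨Equiv.ofUnique Unit (Fin 1), by intro a b; simp⟩
    refine (CW.iso e (CW.vertex (l 0))).of_eq rfl ?_
    funext v
    rw [Subsingleton.elim v 0]
  | succ n ih =>
    have h1 := CW.union (ih (fun i => l i.castSucc)) (CW.vertex (l (Fin.last (n + 1))))
    let eq : Fin (n + 1) ⊕ Unit ≃ Fin (n + 1 + 1) :=
      (Equiv.sumCongr (Equiv.refl _) (Equiv.ofUnique Unit (Fin 1))).trans finSumFinEquiv
    let e : ((⊥ : SimpleGraph (Fin (n + 1))) ⊕g (⊥ : SimpleGraph Unit))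
        ≃g (⊥ : SimpleGraph (Fin (n + 1 + 1))) :=
      ⟨eq, by
        intro a b
        cases a <;> cases b <;> simp [SimpleGraph.sum]⟩
    refine (CW.iso e h1).of_eq rfl ?_
    funext w
    obtain ⟨x, rfl⟩ := eq.surjective w
    have hx : e.symm (eq x) = x := eq.symm_apply_apply x
    rw [hx]
    cases x with
    | inl i =>
      simp only [Sum.elim_inl]
      congr 1
    | inr u =>
      simp only [Sum.elim_inr]
      congr 1

/-! ### The graphs -/

/-- The vertices: `m` vertices at each leaf of a complete binary tree of depth `h`. -/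
def VT (m : ℕ) : ℕ → Type
  | 0 => Fin m
  | h + 1 => VT m h ⊕ VT m h

/-- The index (an element of `Fin m`) of a vertex. -/
def idx {m : ℕ} : {h : ℕ} → VT m h → Fin m
  | 0, i => i
  | _ + 1, Sum.inl x => idx x
  | _ + 1, Sum.inr x => idx x

instance instFintypeVT (m : ℕ) : (h : ℕ) → Fintype (VT m h)
  | 0 => inferInstanceAs (Fintype (Fin m))
  | h + 1 => by
      haveI := instFintypeVT m h
      exact inferInstanceAs (Fintype (VT m h ⊕ VT m h))

theorem card_VT (m h : ℕ) : Fintype.card (VT m h) = m * 2 ^ h := by
  induction h with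
  | zero =>
    have : Fintype.card (VT m 0) = Fintype.card (Fin m) := Fintype.card_congr (Equiv.refl _)
    rw [this]; simp
  | succ h ih =>
    have : Fintype.card (VT m (h + 1)) = Fintype.card (VT m h ⊕ VT m h) :=
      Fintype.card_congr (Equiv.refl _)
    rw [this, Fintype.card_sum, ih]
    ring

/-- The graph of a tree whose internal nodes are labelled by relations on `Fin m`: the vertices
with indices `i`, `j` at two leaves, the first one left of the second one, are adjacent iff the
relation at the lowest common ancestor of the two leaves holds for `(i, j)`. -/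
def treeGraph {m : ℕ} : {h : ℕ} → LT (Fin m × Fin m → Bool) h → SimpleGraph (VT m h)
  | 0, _ => ⊥
  | _ + 1, (T₁, T₂, r) =>
    { Adj := fun x y => match x, y with
        | Sum.inl x, Sum.inl y => (treeGraph T₁).Adj x y
        | Sum.inr x, Sum.inr y => (treeGraph T₂).Adj x y
        | Sum.inl x, Sum.inr y => r (idx x, idx y) = true
        | Sum.inr x, Sum.inl y => r (idx y, idx x) = true
      symm := ⟨by
        rintro (x | x) (y | y) h
        · exact (treeGraph T₁).adj_symm h
        · exact h
        · exact h
        · exact (treeGraph T₂).adj_symm h⟩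
      loopless := ⟨by
        rintro (x | x) h
        · exact (treeGraph T₁).loopless.irrefl x h
        · exact (treeGraph T₂).loopless.irrefl x h⟩ }

/-! ### Clique-width of the tree graphs -/

/-- The labels used for the vertices of a finished tree. -/
def lowLab {m : ℕ} (i : Fin m) : Fin (m + m) := Fin.castAdd m i

/-- The auxiliary labels. -/
def highLab {m : ℕ} (i : Fin m) : Fin (m + m) := Fin.natAdd m i

theorem lowLab_ne_highLab {m : ℕ} (i j : Fin m) : lowLab i ≠ highLab j := by
  intro h
  have := congrArg Fin.val h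
  simp [lowLab, highLab] at this
  omega

theorem lowLab_inj {m : ℕ} {i j : Fin m} (h : lowLab i = lowLab j) : i = j := by
  have := congrArg Fin.val h
  simp [lowLab] at this
  exact Fin.ext this

theorem highLab_inj {m : ℕ} {i j : Fin m} (h : highLab i = highLab j) : i = j := by
  have := congrArg Fin.val h
  simp [highLab] at this
  exact Fin.ext this

theorem low_or_high {m : ℕ} (a : Fin (m + m)) : (∃ i, a = lowLab i) ∨ (∃ i, a = highLab i) := by
  refine Fin.addCases (fun i => Or.inl ⟨i, rfl⟩) (fun i => Or.inr ⟨i, rfl⟩) a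

/-- Swap the two blocks of labels (as a function). -/
def swapFun {m : ℕ} : Fin (m + m) → Fin (m + m) :=
  Fin.addCases (fun i => highLab i) (fun i => lowLab i)

theorem swapFun_low {m : ℕ} (i : Fin m) : swapFun (lowLab i) = highLab i :=
  Fin.addCases_left i

theorem swapFun_high {m : ℕ} (i : Fin m) : swapFun (highLab i) = lowLab i :=
  Fin.addCases_right i

/-- Swap the two blocks of labels. -/
def swapLab (m : ℕ) : Fin (m + m) ≃ Fin (m + m) where
  toFun := swapFun
  invFun := swapFun
  left_inv := by
    intro a
    rcases low_or_high a with ⟨i, rfl⟩ | ⟨i, rfl⟩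
    · rw [swapFun_low, swapFun_high]
    · rw [swapFun_high, swapFun_low]
  right_inv := by
    intro a
    rcases low_or_high a with ⟨i, rfl⟩ | ⟨i, rfl⟩
    · rw [swapFun_low, swapFun_high]
    · rw [swapFun_high, swapFun_low]

theorem swapLab_low {m : ℕ} (i : Fin m) : swapLab m (lowLab i) = highLab i :=
  swapFun_low i

/-- Send every label to the corresponding low label. -/
def toLow {m : ℕ} : Fin (m + m) → Fin (m + m) :=
  Fin.addCases (fun i => lowLab i) (fun i => lowLab i)

theorem toLow_low {m : ℕ} (i : Fin m) : toLow (lowLab i) = lowLab i :=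
  Fin.addCases_left i

theorem toLow_high {m : ℕ} (i : Fin m) : toLow (highLab i) = lowLab i :=
  Fin.addCases_right i

theorem cw_treeGraph {m : ℕ} (hm : 0 < m) {h : ℕ} (T : LT (Fin m × Fin m → Bool) h) :
    CW (m + m) (VT m h) (treeGraph T) (fun x => lowLab (idx x)) := by
  classical
  induction h with
  | zero =>
    obtain ⟨n, rfl⟩ : ∃ n, m = n + 1 := ⟨m - 1, by omega⟩
    exact CW.edgeless n _
  | succ h ih =>
    obtain ⟨T₁, T₂, r⟩ := T
    have h1 := ih T₁
    have h2 := (ih T₂).perm (swapLab m)
    have h3 := CW.union h1 h2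
    let R : Finset (Fin (m + m) × Fin (m + m)) :=
      (Finset.univ.filter (fun p : Fin m × Fin m => r p = true)).image
        (fun p => (lowLab p.1, highLab p.2))
    have hmem : ∀ i j, (lowLab i, highLab j) ∈ R ↔ r (i, j) = true := by
      intro i j
      simp only [R, Finset.mem_image, Finset.mem_filter, Finset.mem_univ, true_and, Prod.mk.injEq]
      constructor
      · rintro ⟨p, hp, h1, h2⟩
        rw [← lowLab_inj h1, ← highLab_inj h2]
        exact hp
      · intro hr
        exact ⟨(i, j), hr, rfl, rfl⟩
    have hsnd : ∀ a i, (a, lowLab i) ∉ R := by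
      intro a i hh
      simp only [R, Finset.mem_image, Finset.mem_filter, Finset.mem_univ, true_and,
        Prod.mk.injEq] at hh
      obtain ⟨p, _, _, h2⟩ := hh
      exact lowLab_ne_highLab _ _ h2.symm
    have hfst : ∀ a i, (highLab i, a) ∉ R := by
      intro a i hh
      simp only [R, Finset.mem_image, Finset.mem_filter, Finset.mem_univ, true_and,
        Prod.mk.injEq] at hh
      obtain ⟨p, _, h2, _⟩ := hh
      exact lowLab_ne_highLab _ _ h2
    have hR : ∀ p ∈ R, p.1 ≠ p.2 := by
      intro p hp
      simp only [R, Finset.mem_image, Finset.mem_filter, Finset.mem_univ, true_and] at hp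
      obtain ⟨q, _, rfl⟩ := hp
      exact lowLab_ne_highLab _ _
    have h4 := (CW.joinAll R hR h3).relabelAll toLow (by
      intro a
      rcases low_or_high a with ⟨i, rfl⟩ | ⟨i, rfl⟩
      · rw [toLow_low, toLow_low]
      · rw [toLow_high, toLow_low])
    refine CW.of_eq h4 ?_ ?_
    · ext x y
      rcases x with x | x <;> rcases y with y | y
      · simp only [sup_adj, sum_adj_inl, fromRel_adj, Sum.elim_inl, hsnd, or_false, and_false]
        rfl
      · simp only [sup_adj, fromRel_adj, Sum.elim_inl, Sum.elim_inr, swapLab_low, hmem, hfst,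
          or_false]
        have : ¬ ((treeGraph T₁) ⊕g (treeGraph T₂)).Adj (Sum.inl x) (Sum.inr y) := by
          simp [SimpleGraph.sum]
        simp only [this, false_or]
        constructor
        · rintro ⟨_, hr⟩; exact hr
        · intro hr; exact ⟨by simp, hr⟩
      · simp only [sup_adj, fromRel_adj, Sum.elim_inl, Sum.elim_inr, swapLab_low, hmem, hfst,
          false_or]
        have : ¬ ((treeGraph T₁) ⊕g (treeGraph T₂)).Adj (Sum.inr x) (Sum.inl y) := by
          simp [SimpleGraph.sum]
        simp only [this, false_or]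
        constructor
        · rintro ⟨_, hr⟩; exact hr
        · intro hr; exact ⟨by simp, hr⟩
      · simp only [sup_adj, sum_adj_inr, fromRel_adj, Sum.elim_inr, swapLab_low, hfst, or_false,
          and_false]
        rfl
    · funext x
      rcases x with x | x
      · simp only [Sum.elim_inl, toLow_low]
        rfl
      · simp only [Sum.elim_inr, swapLab_low, toLow_high]
        rfl

/-! ### Labelling schemes give hosts -/

/-- The host function obtained from a decoder. -/
def hostD {β : Type} {m : ℕ} (Dec : β → β → Bool) (a b : Fin m → β) : Fin m × Fin m → Bool :=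
  fun p => Dec (a p.1) (b p.2)

theorem emb_of_labelling {β : Type} {m : ℕ} (Dec : β → β → Bool) (W : Finset β) {h : ℕ}
    (T : LT (Fin m × Fin m → Bool) h) (ℓ : VT m h → β) (hW : ∀ x, ℓ x ∈ W)
    (hℓ : ∀ x y, x ≠ y → ((treeGraph T).Adj x y ↔ Dec (ℓ x) (ℓ y) = true)) :
    ∃ S ⊆ Fintype.piFinset (fun _ : Fin m => W), Emb (hostD Dec) h T S ∧
      ∀ a ∈ S, ∃ x : Fin m → VT m h, (∀ i, idx (x i) = i) ∧ ∀ i, a i = ℓ (x i) := by
  classical
  induction h with
  | zero =>
    have key : ∀ v : Fin m → β, (∀ i, v i = ℓ i) →
        ∃ S ⊆ Fintype.piFinset (fun _ : Fin m => W), Emb (hostD Dec) 0 T S ∧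
          ∀ a ∈ S, ∃ x : Fin m → VT m 0, (∀ i, idx (x i) = i) ∧ ∀ i, a i = ℓ (x i) := by
      intro v hv
      refine ⟨{v}, ?_, ?_, ?_⟩
      · intro a ha
        rw [Finset.mem_singleton] at ha
        subst ha
        rw [Fintype.mem_piFinset]
        intro i
        rw [hv]
        exact hW i
      · exact Finset.singleton_nonempty _
      · intro a ha
        rw [Finset.mem_singleton] at ha
        subst ha
        exact ⟨fun i => i, fun i => rfl, fun i => hv i⟩
    exact key (fun i => ℓ i) (fun i => rfl)
  | succ h ih =>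
    obtain ⟨T₁, T₂, r⟩ := T
    obtain ⟨S₁, hS₁, e₁, g₁⟩ := ih T₁ (fun x => ℓ (Sum.inl x)) (fun x => hW _) (by
      intro x y hxy
      exact hℓ (Sum.inl x) (Sum.inl y) (fun h => hxy (Sum.inl_injective h)))
    obtain ⟨S₂, hS₂, e₂, g₂⟩ := ih T₂ (fun x => ℓ (Sum.inr x)) (fun x => hW _) (by
      intro x y hxy
      exact hℓ (Sum.inr x) (Sum.inr y) (fun h => hxy (Sum.inr_injective h)))
    refine ⟨S₁ ∪ S₂, Finset.union_subset hS₁ hS₂, ?_, ?_⟩
    · refine ⟨S₁, Finset.subset_union_left, S₂, Finset.subset_union_right, e₁, e₂, ?_⟩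
      intro a ha b hb
      obtain ⟨x, hx, hax⟩ := g₁ a ha
      obtain ⟨y, hy, hby⟩ := g₂ b hb
      funext p
      have h1 : ((treeGraph (h := h + 1) (T₁, T₂, r)).Adj (Sum.inl (x p.1)) (Sum.inr (y p.2)))
          ↔ r (idx (x p.1), idx (y p.2)) = true := Iff.rfl
      have h2 := hℓ (Sum.inl (x p.1)) (Sum.inr (y p.2)) (by intro h; cases h)
      rw [hx, hy] at h1
      rw [h1] at h2
      show Dec (a p.1) (b p.2) = r p
      rw [hax, hby]
      rw [Bool.eq_iff_iff]
      exact h2.symm
    · intro a ha
      rcases Finset.mem_union.1 ha with ha | ha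
      · obtain ⟨x, hx, hax⟩ := g₁ a ha
        exact ⟨fun i => Sum.inl (x i), fun i => hx i, hax⟩
      · obtain ⟨x, hx, hax⟩ := g₂ a ha
        exact ⟨fun i => Sum.inr (x i), fun i => hx i, hax⟩

end Pool.Agent.Work.MP_974ce4_co
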